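import Mathlib

/-!
A zero-dimensional Hausdorff (hence Tychonoff) space `X` whose Pixley-Roy hyperspace is selectively
highly divergent although `X` is not.
-/

set_option autoImplicit false

open Set Filter Topology

namespace Pool.Agent.Results.MP_f85c9e_gt.NotDescending

universe u

/-- No subsequence of the sequence `x` converges to any point of the space. -/
def NoConvSubseq {X : Type u} [TopologicalSpace X] (x : ℕ → X) : Prop :=
  ∀ φ : ℕ → ℕ, StrictMono φ → ∀ a : X, ¬ Tendsto (x ∘ φ) atTop (𝓝 a)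

/-- Selectively highly divergent (SHD) spaces: for every sequence `(U n)` of nonempty open sets
one can choose points `x n ∈ U n` such that `(x n)` has no convergent subsequences. -/
def SHD (X : Type u) [TopologicalSpace X] : Prop :=
  ∀ U : ℕ → Set X, (∀ n, IsOpen (U n) ∧ (U n).Nonempty) →
    ∃ x : ℕ → X, (∀ n, x n ∈ U n) ∧ NoConvSubseq x

/-- The underlying set of the Pixley-Roy hyperspace: the nonempty finite subsets of `X`. -/
def PixleyRoy (X : Type u) : Type u := {A : Set X // A.Nonempty ∧ A.Finite}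

/-- The basic set `[F, V]`. -/
def box {X : Type u} (F : PixleyRoy X) (V : Set X) : Set (PixleyRoy X) :=
  {H | F.1 ⊆ H.1 ∧ H.1 ⊆ V}

/-- The Pixley-Roy topology: `𝒰` is open iff for each `F ∈ 𝒰` there is an open `V ⊇ F` with
`[F, V] ⊆ 𝒰`. -/
instance {X : Type u} [TopologicalSpace X] : TopologicalSpace (PixleyRoy X) where
  IsOpen 𝒰 := ∀ F ∈ 𝒰, ∃ V : Set X, IsOpen V ∧ F.1 ⊆ V ∧ box F V ⊆ 𝒰
  isOpen_univ := fun _ _ => ⟨univ, isOpen_univ, subset_univ _, subset_univ _⟩
  isOpen_inter := by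
    rintro 𝒰 𝒱 h𝒰 h𝒱 F ⟨hF1, hF2⟩
    obtain ⟨V, hV, hFV, hb⟩ := h𝒰 F hF1
    obtain ⟨W, hW, hFW, hc⟩ := h𝒱 F hF2
    refine ⟨V ∩ W, hV.inter hW, subset_inter hFV hFW, ?_⟩
    rintro H ⟨h1, h2⟩
    exact ⟨hb ⟨h1, h2.trans inter_subset_left⟩, hc ⟨h1, h2.trans inter_subset_right⟩⟩
  isOpen_sUnion := by
    rintro S hS F ⟨𝒰, h𝒰, hF⟩
    obtain ⟨V, hV, hFV, hb⟩ := hS 𝒰 h𝒰 F hF
    exact ⟨V, hV, hFV, hb.trans (subset_sUnion_of_mem h𝒰)⟩

lemma box_open {X : Type u} [TopologicalSpace X] (F : PixleyRoy X) {V : Set X} (hV : IsOpen V) :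
    IsOpen (box F V) := by
  rintro H ⟨h1, h2⟩
  exact ⟨V, hV, h2, fun K hK => ⟨h1.trans hK.1, hK.2⟩⟩

/-- The sets `[F, V]` with `V` open and `F ⊆ V` form a local base at `F`. -/
lemma hasBasis {X : Type u} [TopologicalSpace X] (F : PixleyRoy X) :
    (𝓝 F).HasBasis (fun V : Set X => IsOpen V ∧ F.1 ⊆ V) (fun V => box F V) := by
  refine ⟨fun T => ?_⟩
  rw [mem_nhds_iff]
  constructor
  · rintro ⟨𝒰, h1, h2, h3⟩
    obtain ⟨V, hV, hFV, hb⟩ := h2 F h3
    exact ⟨V, ⟨hV, hFV⟩, hb.trans h1⟩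
  · rintro ⟨V, ⟨hV, hFV⟩, hb⟩
    exact ⟨box F V, hb, box_open F hV, Subset.rfl, hFV⟩

/-! ### The space -/

/-- The example: countably many copies (indexed by `some m`) and one more copy (indexed by `none`)
of the set of all functions `ℝ → Bool`. -/
def X : Type := Option ℕ × (ℝ → Bool)

/-- The special point. -/
def p : X := (none, fun _ => false)

/-- `CountNhd U z`: some set `{(i, g) : g = f on C}` with `z = (i, f)` and `C` countable is
contained in `U`. -/
def CountNhd (U : Set X) (z : X) : Prop :=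
  ∃ C : Set ℝ, C.Countable ∧ ∀ g : ℝ → Bool, (∀ c ∈ C, g c = z.2 c) → (z.1, g) ∈ U

/-- The topology: a set is open iff it contains with each `(i, f)` a set
`{(i, g) : g = f on C}`, `C` countable, and in case it contains `p`, it contains also all but
finitely many of the copies `some m`. -/
instance : TopologicalSpace X where
  IsOpen U := (∀ z ∈ U, CountNhd U z) ∧ (p ∈ U → ∃ n : ℕ, ∀ m ≥ n, ∀ g : ℝ → Bool, (some m, g) ∈ U)
  isOpen_univ := ⟨fun _ _ => ⟨∅, countable_empty, fun _ _ => mem_univ _⟩,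
    fun _ => ⟨0, fun _ _ _ => mem_univ _⟩⟩
  isOpen_inter := by
    rintro U V ⟨hU, hU'⟩ ⟨hV, hV'⟩
    refine ⟨?_, ?_⟩
    · rintro z ⟨hzU, hzV⟩
      obtain ⟨C, hC, h1⟩ := hU z hzU
      obtain ⟨D, hD, h2⟩ := hV z hzV
      exact ⟨C ∪ D, hC.union hD, fun g hg =>
        ⟨h1 g fun c hc => hg c (Or.inl hc), h2 g fun c hc => hg c (Or.inr hc)⟩⟩
    · rintro ⟨h1, h2⟩
      obtain ⟨n, hn⟩ := hU' h1
      obtain ⟨k, hk⟩ := hV' h2
      exact ⟨max n k, fun m hm g => ⟨hn m (le_of_max_le_left hm) g, hk m (le_of_max_le_right hm) g⟩⟩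
  isOpen_sUnion := by
    intro S hS
    refine ⟨?_, ?_⟩
    · rintro z ⟨U, hU, hz⟩
      obtain ⟨C, hC, h1⟩ := (hS U hU).1 z hz
      exact ⟨C, hC, fun g hg => ⟨U, hU, h1 g hg⟩⟩
    · rintro ⟨U, hU, hp⟩
      obtain ⟨n, hn⟩ := (hS U hU).2 hp
      exact ⟨n, fun m hm g => ⟨U, hU, hn m hm g⟩⟩

lemma isOpen_iff {U : Set X} : IsOpen U ↔
    (∀ z ∈ U, CountNhd U z) ∧ (p ∈ U → ∃ n : ℕ, ∀ m ≥ n, ∀ g : ℝ → Bool, (some m, g) ∈ U) :=
  Iff.rfl

/-- Two-point separation within one copy. -/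
lemma exists_ne {f g : ℝ → Bool} (h : f ≠ g) : ∃ c, f c ≠ g c := by
  by_contra h'
  push Not at h'
  exact h (funext h')

/-- The complement of a countable set contained in one copy is open. -/
lemma isOpen_compl_countable {S : Set X} (hS : S.Countable) {i : Option ℕ}
    (hi : ∀ z ∈ S, z.1 = i) : IsOpen Sᶜ := by
  refine ⟨?_, ?_⟩
  · intro z hz
    have h1 : ∀ s : X, ∃ c : ℝ, s ∈ S → s.1 = z.1 → s.2 c ≠ z.2 c := by
      intro s
      by_cases hs : s ∈ S ∧ s.1 = z.1
      · have : s.2 ≠ z.2 := by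
          intro h
          apply hz
          have : s = z := Prod.ext hs.2 h
          exact this ▸ hs.1
        obtain ⟨c, hc⟩ := exists_ne this
        exact ⟨c, fun _ _ => hc⟩
      · exact ⟨0, fun h1 h2 => absurd ⟨h1, h2⟩ hs⟩
    choose c hc using h1
    refine ⟨c '' S, hS.image c, ?_⟩
    intro g hg hgS
    exact hc _ hgS rfl (hg _ ⟨_, hgS, rfl⟩)
  · intro _
    cases i with
    | none => exact ⟨0, fun m _ g hg => by simpa using hi _ hg⟩
    | some k =>
      refine ⟨k + 1, fun m hm g hg => ?_⟩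
      have := hi _ hg
      simp only [Option.some.injEq] at this
      omega

instance : T1Space X := ⟨fun z => by
  rw [← isOpen_compl_iff]
  exact isOpen_compl_countable (countable_singleton z) (i := z.1) (by rintro _ rfl; rfl)⟩

/-- Clopen sets form a base of `X`. -/
lemma clopen_basis : TopologicalSpace.IsTopologicalBasis {s : Set X | IsClopen s} := by
  refine TopologicalSpace.isTopologicalBasis_of_isOpen_of_nhds (fun s hs => hs.isOpen) ?_
  intro z U hz hU
  obtain ⟨C, hC, h1⟩ := hU.1 z hz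
  by_cases hzp : z = p
  · subst hzp
    obtain ⟨n, hn⟩ := hU.2 hz
    refine ⟨{w | (w.1 = none ∧ ∀ c ∈ C, w.2 c = false) ∨ ∃ m ≥ n, w.1 = some m}, ⟨?_, ?_⟩, ?_, ?_⟩
    · rw [← isOpen_compl_iff]
      refine ⟨?_, ?_⟩
      · intro w hw
        have hw' : ¬ ((w.1 = none ∧ ∀ c ∈ C, w.2 c = false) ∨ ∃ m ≥ n, w.1 = some m) := hw
        rw [not_or] at hw'
        by_cases hw1 : w.1 = none
        · have : ¬ ∀ c ∈ C, w.2 c = false := fun h => hw'.1 ⟨hw1, h⟩
          push Not at this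
          obtain ⟨c, hc, hcw⟩ := this
          refine ⟨{c}, countable_singleton c, fun g hg => ?_⟩
          rintro (⟨_, h⟩ | h)
          · apply hcw
            rw [← hg c rfl]
            exact h c hc
          · exact hw'.2 h
        · refine ⟨∅, countable_empty, fun g _ => ?_⟩
          rintro (⟨h, _⟩ | h)
          · exact hw1 h
          · exact hw'.2 h
      · intro hp
        exact absurd (Or.inl ⟨rfl, fun _ _ => rfl⟩) hp
    · refine ⟨?_, fun _ => ⟨n, fun m hm g => Or.inr ⟨m, hm, rfl⟩⟩⟩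
      rintro w (⟨hw1, hw2⟩ | ⟨m, hm, hw⟩)
      · refine ⟨C, hC, fun g hg => Or.inl ⟨hw1, fun c hc => ?_⟩⟩
        rw [← hw2 c hc]
        exact hg c hc
      · exact ⟨∅, countable_empty, fun g _ => Or.inr ⟨m, hm, hw⟩⟩
    · exact Or.inl ⟨rfl, fun _ _ => rfl⟩
    · rintro w (⟨hw1, hw2⟩ | ⟨m, hm, hw⟩)
      · have := h1 w.2 fun c hc => hw2 c hc
        have hw' : w = (none, w.2) := Prod.ext hw1 rfl
        rw [hw']
        exact this
      · have hw' : w = (some m, w.2) := Prod.ext hw rfl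
        rw [hw']
        exact hn m hm w.2
  · -- enlarge `C` so that the neighbourhood misses `p`
    obtain ⟨D, hD, hCD, hDp⟩ : ∃ D : Set ℝ, D.Countable ∧ C ⊆ D ∧
        (z.1 = none → ¬ ∀ c ∈ D, z.2 c = false) := by
      by_cases hz1 : z.1 = none
      · have : z.2 ≠ p.2 := fun h => hzp (Prod.ext hz1 h)
        obtain ⟨c, hc⟩ := exists_ne this
        exact ⟨insert c C, hC.insert c, subset_insert _ _,
          fun _ h => hc (h c (mem_insert _ _))⟩
      · exact ⟨C, hC, Subset.rfl, fun h => absurd h hz1⟩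
    refine ⟨{w | w.1 = z.1 ∧ ∀ c ∈ D, w.2 c = z.2 c}, ⟨?_, ?_⟩, ?_, ?_⟩
    · rw [← isOpen_compl_iff]
      refine ⟨?_, ?_⟩
      · intro w hw
        by_cases hw1 : w.1 = z.1
        · have : ¬ ∀ c ∈ D, w.2 c = z.2 c := fun h => hw ⟨hw1, h⟩
          push Not at this
          obtain ⟨c, hc, hcw⟩ := this
          refine ⟨{c}, countable_singleton c, fun g hg => ?_⟩
          rintro ⟨_, h⟩
          apply hcw
          rw [← hg c rfl]
          exact h c hc
        · exact ⟨∅, countable_empty, fun g _ h => hw1 h.1⟩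
      · intro _
        cases hz1 : z.1 with
        | none => exact ⟨0, fun m _ g h => by
            have h1 : (some m : Option ℕ) = none := h.1
            exact absurd h1 (by simp)⟩
        | some k =>
          refine ⟨k + 1, fun m hm g h => ?_⟩
          have : (some m : Option ℕ) = some k := h.1
          simp only [Option.some.injEq] at this
          omega
    · refine ⟨?_, ?_⟩
      · rintro w ⟨hw1, hw2⟩
        refine ⟨D, hD, fun g hg => ⟨hw1, fun c hc => ?_⟩⟩
        rw [← hw2 c hc]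
        exact hg c hc
      · rintro ⟨h1, h2⟩
        exact absurd (fun c hc => (h2 c hc).symm) (hDp h1.symm)
    · exact ⟨rfl, fun _ _ => rfl⟩
    · rintro w ⟨hw1, hw2⟩
      have := h1 w.2 fun c hc => hw2 c (hCD hc)
      have hw' : w = (z.1, w.2) := Prod.ext hw1 rfl
      rw [hw']
      exact this

instance : CompletelyRegularSpace X :=
  CompletelyRegularSpace.of_isTopologicalBasis_clopens clopen_basis

instance : T35Space X where

/-- `X` is not SHD. -/
lemma not_SHD_X : ¬ SHD X := by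
  intro h
  have hU : ∀ m : ℕ, IsOpen {z : X | z.1 = some m} ∧ ({z : X | z.1 = some m}).Nonempty := by
    intro m
    refine ⟨⟨fun z hz => ⟨∅, countable_empty, fun g _ => hz⟩, fun hp => ?_⟩,
      ⟨(some m, fun _ => false), rfl⟩⟩
    have h1 : (none : Option ℕ) = some m := hp
    exact absurd h1 (by simp)
  obtain ⟨x, hx, hx'⟩ := h _ hU
  apply hx' id strictMono_id p
  rw [tendsto_nhds]
  intro U hU hpU
  obtain ⟨n, hn⟩ := hU.2 hpU
  filter_upwards [eventually_ge_atTop n] with m hm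
  have h1 : x m = (some m, (x m).2) := Prod.ext (hx m) rfl
  show x m ∈ U
  rw [h1]
  exact hn m hm _

/-- The Pixley-Roy hyperspace of `X` is SHD. -/
lemma SHD_PR : SHD (PixleyRoy X) := by
  intro 𝒰 h𝒰
  have h1 : ∀ n, ∃ F : PixleyRoy X, ∃ V : Set X, IsOpen V ∧ F.1 ⊆ V ∧ box F V ⊆ 𝒰 n := by
    intro n
    obtain ⟨F, hF⟩ := (h𝒰 n).2
    obtain ⟨V, hV⟩ := (h𝒰 n).1 F hF
    exact ⟨F, V, hV⟩
  choose F V hV hFV hb using h1
  -- base functions and countable supports
  have h2 : ∀ (n : ℕ) (i : Option ℕ), ∃ b : ℝ → Bool, ∃ C : Set ℝ, C.Countable ∧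
      ((∃ f, ((i, f) : X) ∈ V n) → ∀ g : ℝ → Bool, (∀ c ∈ C, g c = b c) → ((i, g) : X) ∈ V n) := by
    intro n i
    by_cases h : ∃ f, ((i, f) : X) ∈ V n
    · obtain ⟨f, hf⟩ := h
      obtain ⟨C, hC, hCV⟩ := (hV n).1 _ hf
      exact ⟨f, C, hC, fun _ => hCV⟩
    · exact ⟨fun _ => false, ∅, countable_empty, fun h' => absurd h' h⟩
  choose b C hC hbC using h2
  set D : Set ℝ := ⋃ n, ⋃ i, C n i with hD
  have hDc : D.Countable := countable_iUnion fun n => countable_iUnion fun i => hC n i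
  have hDi : (Dᶜ).Infinite := by
    intro hfin
    have : (univ : Set ℝ).Countable := by
      rw [← union_compl_self D]
      exact hDc.union hfin.countable
    exact not_countable_univ this
  obtain ⟨c, hc⟩ : ∃ c : ℕ → ℝ, Function.Injective c ∧ ∀ n, c n ∈ Dᶜ := by
    refine ⟨fun n => (Set.Infinite.natEmbedding _ hDi n : ℝ), ?_, fun n => Subtype.prop _⟩
    exact Subtype.val_injective.comp (Set.Infinite.natEmbedding _ hDi).injective
  classical
  set y : ℕ → Option ℕ → ℝ → Bool := fun n i r => if r ∈ D then b n i r else decide (r = c n)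
    with hy
  have hyD : ∀ n i, ∀ r ∈ D, y n i r = b n i r := fun n i r hr => by simp [hy, hr]
  have hyc : ∀ n m i, y n i (c m) = decide (m = n) := by
    intro n m i
    have : c m ∉ D := hc.2 m
    simp [hy, this, hc.1.eq_iff]
  have hyinj : ∀ n m i, y n i = y m i → n = m := by
    intro n m i h
    have h3 := congrFun h (c n)
    rw [hyc, hyc] at h3
    simpa using h3
  have hyV : ∀ n i, (∃ f, ((i, f) : X) ∈ V n) → ((i, y n i) : X) ∈ V n := by
    intro n i h
    refine hbC n i h _ fun r hr => hyD n i r ?_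
    exact mem_iUnion₂.2 ⟨n, i, hr⟩
  refine ⟨fun n => ⟨(F n).1 ∪ (fun i => ((i, y n i) : X)) '' (Prod.fst '' (F n).1),
    (F n).2.1.mono subset_union_left,
    (F n).2.2.union (((F n).2.2.image _).image _)⟩, ?_, ?_⟩
  · intro n
    refine hb n ⟨subset_union_left, union_subset (hFV n) ?_⟩
    rintro _ ⟨i, ⟨z, hz, rfl⟩, rfl⟩
    exact hyV n z.1 ⟨z.2, hFV n hz⟩
  · intro φ hφ H hlim
    obtain ⟨h, hh⟩ := H.2.1
    set S : Set X := range (fun k => ((h.1, y (φ k) h.1) : X)) \ H.1 with hS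
    have hSc : S.Countable := (countable_range _).mono sdiff_subset
    have hSo : IsOpen Sᶜ := isOpen_compl_countable hSc (i := h.1) (by
      rintro _ ⟨⟨k, rfl⟩, _⟩
      rfl)
    have hHS : H.1 ⊆ Sᶜ := fun z hz hzS => hzS.2 hz
    have h3 := (tendsto_nhds.1 hlim) (box H Sᶜ) (box_open H hSo) ⟨Subset.rfl, hHS⟩
    obtain ⟨N, hN⟩ := eventually_atTop.1 h3
    have h4 : ∀ k ≥ N, ((h.1, y (φ k) h.1) : X) ∈ H.1 := by
      intro k hk
      obtain ⟨h5, h6⟩ := hN k hk
      have h7 : h.1 ∈ Prod.fst '' (F (φ k)).1 := by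
        rcases h5 hh with h8 | ⟨i, hi, hih⟩
        · exact ⟨h, h8, rfl⟩
        · have : i = h.1 := congrArg Prod.fst hih
          exact this ▸ hi
      have h8 : ((h.1, y (φ k) h.1) : X) ∈ Sᶜ := h6 (Or.inr ⟨h.1, h7, rfl⟩)
      by_contra h9
      exact h8 ⟨⟨k, rfl⟩, h9⟩
    have h5 : (range fun k => ((h.1, y (φ (k + N)) h.1) : X)).Infinite := by
      apply infinite_range_of_injective
      intro k l hkl
      have h6 : y (φ (k + N)) h.1 = y (φ (l + N)) h.1 := congrArg Prod.snd hkl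
      have h7 := hφ.injective (hyinj _ _ _ h6)
      omega
    apply h5
    refine H.2.2.subset ?_
    rintro _ ⟨k, rfl⟩
    exact h4 (k + N) (Nat.le_add_left _ _)

/-- **Selective high divergence does not descend from the Pixley-Roy hyperspace**: there is a
Tychonoff (even zero-dimensional) space which is not SHD but whose Pixley-Roy hyperspace is SHD. -/
theorem result : ∃ (X : Type) (_ : TopologicalSpace X), T1Space X ∧ T35Space X ∧
    TopologicalSpace.IsTopologicalBasis {s : Set X | IsClopen s} ∧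
    SHD (PixleyRoy X) ∧ ¬ SHD X :=
  ⟨X, inferInstance, inferInstance, inferInstance, clopen_basis, SHD_PR, not_SHD_X⟩

end Pool.Agent.Results.MP_f85c9e_gt.NotDescending
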